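import Pool.Agent.MWKP.Stmts

/-!
# MWKP, row DGN: a difference of shapes in total makes the congruence degenerate
-/

set_option autoImplicit false

namespace Pool.Agent.MWKP.H51

open Pool.Agent.Helper14_MV Pool.Agent.Helper2_MV Pool.Agent.MWK Pool.Agent.MWKP

theorem flatMap_rep (c : ℕ) (u : List ℕ) :
    u.flatMap (fun d => if d = c then [0] else []) = List.replicate (u.count c) 0 := by
  induction u with
  | nil => rfl
  | cons a u ih =>
    rw [List.flatMap_cons, ih, List.count_cons]
    by_cases h : a = c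
    · simp [h, List.replicate_succ]
    · simp [h]

theorem flat_rep0 : ∀ k : ℕ,
    (List.replicate k 0).flatMap (fun d : ℕ => if d = 0 then [0] else []) =
      List.replicate k 0
  | 0 => rfl
  | k + 1 => by
    rw [List.replicate_succ, List.flatMap_cons, flat_rep0 k]
    rfl

/-- adding `n` to an exponent `≥ 2` -/
theorem addn {n : ℕ} {θ : FIC} (hK : Kn n θ) (k : ℕ) :
    RR θ (List.replicate (k + 2) 0) (List.replicate (k + 2 + n) 0) := by
  have h := hK.g.sub (fun d => if d = 0 then [0] else [])
  have e2 : ((0 :: 1 :: List.replicate (n + 1) 0 : List ℕ)).flatMap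
      (fun d => if d = 0 then [0] else []) = List.replicate (n + 2) 0 := by
    rw [List.flatMap_cons, List.flatMap_cons, flat_rep0]
    rfl
  have e1 : ([0, 1, 0] : List ℕ).flatMap (fun d => if d = 0 then [0] else []) =
      List.replicate 2 0 := rfl
  rw [e1, e2] at h
  have h' := (RR.refl (β := θ) (List.replicate k 0)).append h
  rw [← List.replicate_add, ← List.replicate_add] at h'
  rw [show k + 2 + n = k + (n + 2) by omega]
  exact h'

/-- adding a multiple of `n` to an exponent `≥ 2` -/
theorem addm {n : ℕ} {θ : FIC} (hK : Kn n θ) (k : ℕ) : ∀ t : ℕ,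
    RR θ (List.replicate (k + 2) 0) (List.replicate (k + 2 + t * n) 0)
  | 0 => by
    rw [Nat.zero_mul, Nat.add_zero]
    exact RR.refl _
  | t + 1 => by
    have h1 := addm hK k t
    have h2 := addn hK (k + t * n)
    rw [show k + t * n + 2 = k + 2 + t * n by omega] at h2
    rw [show k + 2 + (t + 1) * n = k + 2 + t * n + n by rw [Nat.add_mul, Nat.one_mul]; omega]
    exact θ.trans h1 h2

/-- multiples of an exponent -/
theorem mulz {θ : FIC} {b : ℕ} (h : RR θ [] (List.replicate b 0)) : ∀ t : ℕ,
    RR θ [] (List.replicate (t * b) 0)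
  | 0 => by
    rw [Nat.zero_mul]
    exact RR.refl _
  | t + 1 => by
    have h1 := (mulz h t).append h
    rw [← List.replicate_add] at h1
    rw [show (t + 1) * b = t * b + b by rw [Nat.add_mul, Nat.one_mul]]
    exact h1

theorem muls {θ : FIC} {b : ℕ} (h : RR θ [0] (List.replicate (b + 1) 0)) : ∀ t : ℕ,
    RR θ [0] (List.replicate (t * b + 1) 0)
  | 0 => by
    rw [Nat.zero_mul, Nat.zero_add]
    exact RR.refl _
  | t + 1 => by
    have h1 := (RR.refl (β := θ) (List.replicate (t * b) 0)).append h
    rw [← List.replicate_add] at h1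
    have e : List.replicate (t * b) 0 ++ [0] = List.replicate (t * b + 1) (0 : ℕ) := by
      rw [List.replicate_add]
      rfl
    rw [e] at h1
    rw [show (t + 1) * b + 1 = t * b + (b + 1) by rw [Nat.add_mul, Nat.one_mul]; omega]
    exact θ.trans (muls h t) h1

theorem dz_of {n : ℕ} {θ : FIC} (hK : Kn n θ) {b : ℕ} (hb : 1 ≤ b)
    (h : RR θ [] (List.replicate b 0)) : Dz n θ := by
  have hn := hK.pos
  have h1 := mulz h n
  have hnb : 1 ≤ n * b := Nat.mul_pos hn hb
  by_cases h2 : 2 ≤ n * b
  · obtain ⟨k, hk⟩ : ∃ k, n * b = k + 2 := ⟨n * b - 2, by omega⟩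
    have h3 := addn hK k
    rw [← hk] at h3
    have h4 := h1.append (RR.refl (β := θ) (List.replicate n 0))
    rw [← List.replicate_add, List.nil_append] at h4
    exact θ.trans h1 (θ.trans h3 h4.symm)
  · have h3 : n * b = 1 := by omega
    have h4 : n = 1 := Nat.eq_one_of_mul_eq_one_right h3
    unfold Dz
    rw [h3] at h1
    rw [h4]
    exact h1

theorem dg_of_dz {n : ℕ} {θ : FIC} (h : Dz n θ) : Dg n θ := by
  unfold Dz at h
  unfold Dg
  have h1 := (RR.refl (β := θ) [0]).append h
  exact h1

theorem dg_of {n : ℕ} {θ : FIC} (hK : Kn n θ) {b : ℕ} (hb : 2 ≤ b)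
    (h : RR θ [0] (List.replicate b 0)) : Dg n θ := by
  obtain ⟨c, rfl⟩ : ∃ c, b = c + 2 := ⟨b - 2, by omega⟩
  have hn := hK.pos
  obtain ⟨m, rfl⟩ : ∃ m, n = m + 1 := ⟨n - 1, by omega⟩
  have h1 := muls (b := c + 1) h (m + 1)
  have h2 := addm hK m c
  unfold Dg
  rw [show m + 2 + c * (m + 1) = (m + 1) * (c + 1) + 1 by ring] at h2
  exact θ.trans h1 h2.symm

theorem cnt_rr {θ : FIC} {u v : List ℕ} (h : RR θ u v) (x : ℕ) :
    RR θ (List.replicate (u.count x) 0) (List.replicate (v.count x) 0) := by
  have h1 := h.sub (fun d => if d = x then [0] else [])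
  rw [flatMap_rep, flatMap_rep] at h1
  exact h1

theorem half {n : ℕ} {θ : FIC} (hK : Kn n θ) {a b : ℕ}
    (h : RR θ (List.replicate a 0) (List.replicate b 0)) (hab : a < b) (ha : a ≤ 1) :
    Dg n θ := by
  rcases Nat.eq_zero_or_pos a with h0 | h0
  · rw [h0] at h hab
    exact dg_of_dz (dz_of hK hab h)
  · have h1 : a = 1 := by omega
    rw [h1] at h hab
    exact dg_of hK hab h

/-- **DGN**. -/
theorem dgn : DgnStmt := by
  intro n θ hK u v huv
  refine ⟨?_, ?_⟩
  · intro hA
    by_contra hD
    apply hA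
    refine ⟨?_, ?_⟩
    · intro x i hi
      have h1 := cnt_rr huv x
      constructor
      · intro hu
        by_contra hv
        exact hD (half hK h1.symm (by omega) (by omega))
      · intro hv
        by_contra hu
        exact hD (half hK h1 (by omega) (by omega))
    · intro y x i _ hF
      exact absurd hF (fun h => h)
  · intro x hu hv
    have h1 := (cnt_rr huv x).symm
    rw [List.count_eq_zero.2 hv] at h1
    exact dz_of hK (List.count_pos_iff.2 hu) h1

end Pool.Agent.MWKP.H51
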